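import Pool.Agent.Lib.MP_0e7911_co_h50.Basic

/-! M4: the core lemma, from the Hecke trace lemmas and the commutation lemma. -/

set_option autoImplicit false

namespace Pool.Agent.Lib.MP_0e7911_co_h50

open Finset

namespace H6

lemma inv_self' {α : Type*} (f : Equiv.Perm α) (x : α) : f⁻¹ (f x) = x := f.symm_apply_apply x

lemma self_inv' {α : Type*} (f : Equiv.Perm α) (x : α) : f (f⁻¹ x) = x := f.apply_symm_apply x

/-- counting lemma for one board -/
lemma count {d : ℕ} (a : Fin d → ℕ) (ha : Monotone a) (τ τ' : Equiv.Perm (Fin d))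
    (hadj : ∀ t, (τ' t : ℕ) < a (τ t)) :
    inv τ + (univ.filter (fun st : Fin d × Fin d =>
        st.1 < st.2 ∧ (τ' st.1 : ℕ) < a (τ st.2))).card =
      (univ.filter (fun st : Fin d × Fin d => st.1 < st.2)).card +
      (univ.filter (fun pp : Fin d × Fin d =>
        pp.1 < pp.2 ∧ τ⁻¹ pp.2 < τ⁻¹ pp.1 ∧ (τ' (τ⁻¹ pp.2) : ℕ) < a pp.1)).card := by
  classical
  unfold inv
  have h1 : (univ.filter (fun st : Fin d × Fin d =>
        st.1 < st.2 ∧ (τ' st.1 : ℕ) < a (τ st.2))).card =
      (univ.filter (fun st : Fin d × Fin d => st.1 < st.2 ∧ τ st.1 < τ st.2)).card +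
      (univ.filter (fun st : Fin d × Fin d =>
        st.1 < st.2 ∧ τ st.2 < τ st.1 ∧ (τ' st.1 : ℕ) < a (τ st.2))).card := by
    rw [← Finset.card_union_of_disjoint]
    · congr 1
      ext st
      simp only [mem_filter, mem_univ, true_and, mem_union]
      constructor
      · rintro ⟨h, h'⟩
        rcases lt_trichotomy (τ st.1) (τ st.2) with h2 | h2 | h2
        · exact Or.inl ⟨h, h2⟩
        · exact absurd (τ.injective h2) (ne_of_lt h)
        · exact Or.inr ⟨h, h2, h'⟩
      · rintro (⟨h, h'⟩ | ⟨h, h', h''⟩)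
        · exact ⟨h, lt_of_lt_of_le (hadj st.1) (ha h'.le)⟩
        · exact ⟨h, h''⟩
    · rw [Finset.disjoint_left]
      intro st h2 h3
      simp only [mem_filter, mem_univ, true_and] at h2 h3
      exact absurd h2.2 (not_lt.2 h3.2.1.le)
  have h2 : (univ.filter (fun st : Fin d × Fin d => st.1 < st.2)).card =
      (univ.filter (fun st : Fin d × Fin d => st.1 < st.2 ∧ τ st.2 < τ st.1)).card +
      (univ.filter (fun st : Fin d × Fin d => st.1 < st.2 ∧ τ st.1 < τ st.2)).card := by
    rw [← Finset.card_union_of_disjoint]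
    · congr 1
      ext st
      simp only [mem_filter, mem_univ, true_and, mem_union]
      constructor
      · intro h
        rcases lt_trichotomy (τ st.1) (τ st.2) with h2 | h2 | h2
        · exact Or.inr ⟨h, h2⟩
        · exact absurd (τ.injective h2) (ne_of_lt h)
        · exact Or.inl ⟨h, h2⟩
      · rintro (⟨h, _⟩ | ⟨h, _⟩) <;> exact h
    · rw [Finset.disjoint_left]
      intro st h2 h3
      simp only [mem_filter, mem_univ, true_and] at h2 h3
      exact absurd h2.2 (not_lt.2 h3.2.le)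
  have h3 : (univ.filter (fun st : Fin d × Fin d =>
        st.1 < st.2 ∧ τ st.2 < τ st.1 ∧ (τ' st.1 : ℕ) < a (τ st.2))).card =
      (univ.filter (fun pp : Fin d × Fin d =>
        pp.1 < pp.2 ∧ τ⁻¹ pp.2 < τ⁻¹ pp.1 ∧ (τ' (τ⁻¹ pp.2) : ℕ) < a pp.1)).card := by
    refine Finset.card_bij' (fun st _ => (τ st.2, τ st.1)) (fun pp _ => (τ⁻¹ pp.2, τ⁻¹ pp.1))
      ?_ ?_ ?_ ?_
    · intro st h
      simp only [mem_filter, mem_univ, true_and, inv_self'] at h ⊢
      exact ⟨h.2.1, h.1, h.2.2⟩
    · intro st h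
      simp only [mem_filter, mem_univ, true_and, self_inv'] at h ⊢
      exact ⟨h.2.1, h.1, h.2.2⟩
    · intro st _
      simp
    · intro st _
      simp
  omega

/-- the last class -/
lemma count_last {e : ℕ} (a : Fin (e + 1) → ℕ) (τ τ0 : Equiv.Perm (Fin (e + 1))) :
    (univ.filter (fun st : Fin (e + 1) × Fin (e + 1) =>
      st.1 ≤ st.2 ∧ (τ0 st.1 : ℕ) < a (τ st.2))).card =
    predc a (τ0 0) + (univ.filter (fun st : Fin (e + 1) × Fin (e + 1) =>
      st.1 < st.2 ∧ (((τ0 * finRotate (e + 1)) st.1 : Fin (e + 1)) : ℕ) < a (τ st.2))).card := by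
  classical
  have h1 : (univ.filter (fun st : Fin (e + 1) × Fin (e + 1) =>
      st.1 ≤ st.2 ∧ (τ0 st.1 : ℕ) < a (τ st.2))).card =
      (univ.filter (fun st : Fin (e + 1) × Fin (e + 1) =>
        st.1 = 0 ∧ (τ0 st.1 : ℕ) < a (τ st.2))).card +
      (univ.filter (fun st : Fin (e + 1) × Fin (e + 1) =>
        st.1 ≠ 0 ∧ st.1 ≤ st.2 ∧ (τ0 st.1 : ℕ) < a (τ st.2))).card := by
    rw [← Finset.card_union_of_disjoint]
    · congr 1
      ext st
      simp only [mem_filter, mem_univ, true_and, mem_union]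
      constructor
      · rintro ⟨h, h'⟩
        by_cases h0 : st.1 = 0
        · exact Or.inl ⟨h0, h'⟩
        · exact Or.inr ⟨h0, h, h'⟩
      · rintro (⟨h, h'⟩ | ⟨_, h, h'⟩)
        · exact ⟨by rw [h]; exact Fin.zero_le _, h'⟩
        · exact ⟨h, h'⟩
    · rw [Finset.disjoint_left]
      intro st h2 h3
      simp only [mem_filter, mem_univ, true_and] at h2 h3
      exact h3.1 h2.1
  rw [h1]
  congr 1
  · unfold predc
    refine Finset.card_bij' (fun st _ => τ st.2) (fun p _ => (0, τ⁻¹ p)) ?_ ?_ ?_ ?_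
    · intro st h
      simp only [mem_filter, mem_univ, true_and] at h ⊢
      rw [h.1] at h
      exact h.2
    · intro p h
      simp only [mem_filter, mem_univ, true_and, self_inv'] at h ⊢
      exact h
    · intro st h
      simp only [mem_filter, mem_univ, true_and] at h
      ext <;> simp [h.1]
    · intro p _
      simp
  · refine Finset.card_bij' (fun st _ => (st.1 - 1, st.2)) (fun st _ => (st.1 + 1, st.2))
      ?_ ?_ ?_ ?_
    · intro st h
      simp only [mem_filter, mem_univ, true_and] at h ⊢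
      obtain ⟨h0, h2, h3⟩ := h
      have h4 : finRotate (e + 1) (st.1 - 1) = st.1 := by
        rw [finRotate_apply]; simp
      refine ⟨?_, ?_⟩
      · have h5 : ((st.1 - 1 : Fin (e + 1)) : ℕ) = (st.1 : ℕ) - 1 := Fin.val_sub_one_of_ne_zero h0
        rw [Fin.lt_def, h5]
        have h6 : (st.1 : ℕ) ≠ 0 := fun h => h0 (Fin.ext h)
        have h7 : (st.1 : ℕ) ≤ st.2 := h2
        omega
      · rw [Equiv.Perm.mul_apply, h4]; exact h3
    · intro st h
      simp only [mem_filter, mem_univ, true_and] at h ⊢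
      obtain ⟨h2, h3⟩ := h
      rw [Equiv.Perm.mul_apply, finRotate_apply] at h3
      have h4 : ((st.1 + 1 : Fin (e + 1)) : ℕ) = (st.1 : ℕ) + 1 := by
        apply Fin.val_add_one_of_lt
        exact lt_of_lt_of_le h2 (Fin.le_last _)
      refine ⟨?_, ?_, h3⟩
      · intro h0
        rw [h0] at h4
        simp at h4
      · rw [Fin.le_def, h4]; exact h2
    · intro st _
      simp
    · intro st _
      simp

/-- product of boards -/
noncomputable def PB {K : Type*} [CommRing K] (q : K) {d : ℕ} (al : ℕ → Fin d → ℕ) :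
    ℕ → Matrix (Equiv.Perm (Fin d)) (Equiv.Perm (Fin d)) K
  | 0 => 1
  | k + 1 => Bmat q (al k) * PB q al k

lemma PB_expand {K : Type*} [CommRing K] (q : K) {d : ℕ} (al : ℕ → Fin d → ℕ) (b : ℕ)
    (c' c0 : Equiv.Perm (Fin d)) :
    PB q al (b + 1) c' c0 = ∑ c : Fin (b + 1) → Equiv.Perm (Fin d),
      if c 0 = c0 then Bmat q (al b) c' (c (Fin.last b)) *
        ∏ i : Fin b, Bmat q (al i) (c i.succ) (c i.castSucc) else 0 := by
  induction b generalizing c' with
  | zero =>
    have : PB q al (0 + 1) = Bmat q (al 0) := by simp [PB]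
    rw [this]
    rw [← (Equiv.funUnique (Fin 1) (Equiv.Perm (Fin d))).symm.sum_comp]
    simp
  | succ b ih =>
    have : PB q al (b + 1 + 1) = Bmat q (al (b + 1)) * PB q al (b + 1) := rfl
    rw [this, Matrix.mul_apply]
    rw [← (Fin.snocEquiv (fun _ => Equiv.Perm (Fin d))).sum_comp, Fintype.sum_prod_type]
    refine Finset.sum_congr rfl fun c'' _ => ?_
    rw [ih, Finset.mul_sum]
    refine Finset.sum_congr rfl fun c _ => ?_
    have h0 : (Fin.snocEquiv (fun _ : Fin (b + 1 + 1) => Equiv.Perm (Fin d))) (c'', c) 0 = c 0 := by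
      exact Fin.snoc_castSucc (α := fun _ => Equiv.Perm (Fin d)) c'' c 0
    have hl : (Fin.snocEquiv (fun _ : Fin (b + 1 + 1) => Equiv.Perm (Fin d))) (c'', c)
        (Fin.last (b + 1)) = c'' :=
      Fin.snoc_last (α := fun _ => Equiv.Perm (Fin d)) c'' c
    have hc : ∀ i : Fin (b + 1), (Fin.snocEquiv (fun _ : Fin (b + 1 + 1) =>
        Equiv.Perm (Fin d))) (c'', c) i.castSucc = c i := fun i =>
      Fin.snoc_castSucc (α := fun _ => Equiv.Perm (Fin d)) c'' c i
    rw [h0, hl]
    by_cases h : c 0 = c0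
    · rw [if_pos h, if_pos h, Fin.prod_univ_castSucc]
      rw [show (Fin.last b).succ = Fin.last (b + 1) from rfl, hl, hc]
      simp only [Fin.val_last]
      have : ∀ i : Fin b, Bmat q (al (i.castSucc : Fin (b + 1)))
          ((Fin.snocEquiv (fun _ : Fin (b + 1 + 1) => Equiv.Perm (Fin d))) (c'', c)
            i.castSucc.succ)
          ((Fin.snocEquiv (fun _ : Fin (b + 1 + 1) => Equiv.Perm (Fin d))) (c'', c)
            i.castSucc.castSucc) = Bmat q (al i) (c i.succ) (c i.castSucc) := by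
        intro i
        rw [hc, show i.castSucc.succ = i.succ.castSucc from rfl, hc]
        rfl
      rw [Finset.prod_congr rfl fun i _ => this i]
      ring
    · rw [if_neg h, if_neg h, mul_zero]

lemma comm_mul {K : Type*} [CommRing K] (q : K) {d : ℕ}
    {X Y : Matrix (Equiv.Perm (Fin d)) (Equiv.Perm (Fin d)) K} (hX : Comm q X) (hY : Comm q Y) :
    Comm q (X * Y) := by
  intro i h
  rw [mul_assoc, hY i h, ← mul_assoc, hX i h, mul_assoc]

lemma comm_one {K : Type*} [CommRing K] (q : K) {d : ℕ} :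
    Comm q (1 : Matrix (Equiv.Perm (Fin d)) (Equiv.Perm (Fin d)) K) := by
  intro i h
  rw [one_mul, mul_one]

lemma PB_comm {K : Type*} [CommRing K] (q : K) {d : ℕ} (al : ℕ → Fin d → ℕ)
    (hB : ∀ i, Comm q (Bmat q (al i))) (k : ℕ) : Comm q (PB q al k) := by
  induction k with
  | zero => exact comm_one q
  | succ k ih => exact comm_mul q (hB k) ih

lemma PB_shift {K : Type*} [CommRing K] (q : K) {d : ℕ} (al : ℕ → Fin d → ℕ) (k : ℕ) :
    PB q al (k + 1) = PB q (fun i => al (i + 1)) k * Bmat q (al 0) := by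
  induction k with
  | zero => simp [PB]
  | succ k ih =>
    have h1 : PB q al (k + 1 + 1) = Bmat q (al (k + 1)) * PB q al (k + 1) := rfl
    have h2 : PB q (fun i => al (i + 1)) (k + 1) =
      Bmat q (al (k + 1)) * PB q (fun i => al (i + 1)) k := rfl
    rw [h1, h2, ih, mul_assoc]

/-- the main computation: `PP` as a cut functional of the product of the boards -/
lemma PP_eq {K : Type*} [CommRing K] (q : K) {b e : ℕ}
    (al : ℕ → Fin (e + 1) → ℕ) (hmono : ∀ i, Monotone (al i)) (r : Fin (e + 1)) :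
    PP (b := b) q al r = q ^ (predc (al b) r) *
      (q ^ ((b + 1) * (univ.filter (fun st : Fin (e + 1) × Fin (e + 1) => st.1 < st.2)).card) *
        Lam r (PB q al (b + 1))) := by
  classical
  set N := (univ.filter (fun st : Fin (e + 1) × Fin (e + 1) => st.1 < st.2)).card with hN
  unfold PP Lam
  have hL : (∑ c0 : Equiv.Perm (Fin (e + 1)), if (c0 r : ℕ) = 0 then
      PB q al (b + 1) ((finRotate (e + 1))⁻¹ * c0) c0 else 0) =
      ∑ c : Fin (b + 1) → Equiv.Perm (Fin (e + 1)),
        if ((c 0) r : ℕ) = 0 then Bmat q (al b) ((finRotate (e + 1))⁻¹ * c 0) (c (Fin.last b)) *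
          ∏ i : Fin b, Bmat q (al i) (c i.succ) (c i.castSucc) else 0 := by
    have : ∀ c0 : Equiv.Perm (Fin (e + 1)), (if (c0 r : ℕ) = 0 then
        PB q al (b + 1) ((finRotate (e + 1))⁻¹ * c0) c0 else 0) =
        ∑ c : Fin (b + 1) → Equiv.Perm (Fin (e + 1)), if c 0 = c0 then
          (if ((c 0) r : ℕ) = 0 then Bmat q (al b) ((finRotate (e + 1))⁻¹ * c 0) (c (Fin.last b)) *
          ∏ i : Fin b, Bmat q (al i) (c i.succ) (c i.castSucc) else 0) else 0 := by
      intro c0
      rw [PB_expand]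
      split_ifs with h
      · refine Finset.sum_congr rfl fun c _ => ?_
        by_cases hc : c 0 = c0
        · rw [if_pos hc, if_pos hc, hc, if_pos h]
        · rw [if_neg hc, if_neg hc]
      · symm
        refine Finset.sum_eq_zero fun c _ => ?_
        by_cases hc : c 0 = c0
        · rw [if_pos hc, hc, if_neg h]
        · rw [if_neg hc]
    rw [Finset.sum_congr rfl fun c0 _ => this c0, Finset.sum_comm]
    refine Finset.sum_congr rfl fun c _ => ?_
    rw [Finset.sum_ite_eq]
    simp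
  rw [hL]
  rw [← (Equiv.piCongrRight fun _ : Fin (b + 1) => Equiv.inv (Equiv.Perm (Fin (e + 1)))).sum_comp,
    Finset.mul_sum, Finset.mul_sum]
  refine Finset.sum_congr rfl fun c _ => ?_
  have hcc : ∀ i, (Equiv.piCongrRight fun _ : Fin (b + 1) =>
      Equiv.inv (Equiv.Perm (Fin (e + 1)))) c i = (c i)⁻¹ := fun i => rfl
  set τ : Fin (b + 1) → Equiv.Perm (Fin (e + 1)) := (Equiv.piCongrRight fun _ : Fin (b + 1) =>
      Equiv.inv (Equiv.Perm (Fin (e + 1)))) c with hτ
  have hr : τ 0 0 = r ↔ ((c 0) r : ℕ) = 0 := by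
    rw [hcc]
    constructor
    · intro h
      rw [← h]
      simp
    · intro h
      rw [Equiv.Perm.inv_eq_iff_eq]
      exact (Fin.ext h).symm
  by_cases h : ((c 0) r : ℕ) = 0
  swap
  · rw [if_neg (fun h' => h (hr.1 h'.2)), if_neg h]
    simp
  rw [if_pos h]
  have hr' := hr.2 h
  -- the adjacency conditions
  have hA1 : ∀ i : Fin b, (∀ t, (τ i.succ t : ℕ) < al i (τ i.castSucc t)) ↔
      (∀ p : Fin (e + 1), (((c i.succ)⁻¹ (c i.castSucc p) : Fin (e + 1)) : ℕ) < al i p) := by
    intro i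
    constructor
    · intro hh p
      have := hh (c i.castSucc p)
      rw [hcc, hcc, inv_self'] at this
      exact this
    · intro hh t
      have := hh ((c i.castSucc)⁻¹ t)
      rw [hcc, hcc]
      rw [self_inv'] at this
      exact this
  have hrot : ∀ t, ((finRotate (e + 1))⁻¹ * c 0)⁻¹ t = τ 0 (t + 1) := by
    intro t
    rw [mul_inv_rev, inv_inv, Equiv.Perm.mul_apply, finRotate_apply, hcc]
  have hA2 : (∀ t : Fin (e + 1), (τ 0 (t + 1) : ℕ) < al b (τ (Fin.last b) t)) ↔
      (∀ p : Fin (e + 1), ((((finRotate (e + 1))⁻¹ * c 0)⁻¹ (c (Fin.last b) p) :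
        Fin (e + 1)) : ℕ) < al b p) := by
    constructor
    · intro hh p
      rw [hrot]
      have := hh (c (Fin.last b) p)
      rw [hcc (Fin.last b), inv_self'] at this
      exact this
    · intro hh t
      have := hh ((c (Fin.last b))⁻¹ t)
      rw [hrot, self_inv'] at this
      rw [hcc (Fin.last b)]
      exact this
  by_cases hadj : Adj al τ
  · rw [if_pos ⟨hadj, hr'⟩]
    obtain ⟨ha1, ha2⟩ := hadj
    unfold Bmat
    rw [if_pos (hA2.1 ha2)]
    rw [Finset.prod_congr rfl fun i _ => if_pos ((hA1 i).1 (ha1 i))]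
    rw [Finset.prod_pow_eq_pow_sum, ← pow_add, ← pow_add, ← pow_add]
    congr 1
    unfold TT
    -- count
    have e1 : ∀ i : Fin b, inv (τ i.castSucc) + (univ.filter
        (fun st : Fin (e + 1) × Fin (e + 1) =>
        st.1 < st.2 ∧ (τ i.succ st.1 : ℕ) < al i (τ i.castSucc st.2))).card =
        N + (univ.filter (fun pp : Fin (e + 1) × Fin (e + 1) =>
        pp.1 < pp.2 ∧ c i.castSucc pp.2 < c i.castSucc pp.1 ∧
          (((c i.succ)⁻¹ (c i.castSucc pp.2) : Fin (e + 1)) : ℕ) < al i pp.1)).card := by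
      intro i
      have := count (al i) (hmono i) (τ i.castSucc) (τ i.succ) (ha1 i)
      rw [this]
      have h5 : (τ i.castSucc)⁻¹ = c i.castSucc := by rw [hcc, inv_inv]
      rw [h5]
      rfl
    have e2 : inv (τ (Fin.last b)) + (univ.filter (fun st : Fin (e + 1) × Fin (e + 1) =>
        st.1 ≤ st.2 ∧ (τ 0 st.1 : ℕ) < al b (τ (Fin.last b) st.2))).card =
        predc (al b) r + (N + (univ.filter (fun pp : Fin (e + 1) × Fin (e + 1) =>
        pp.1 < pp.2 ∧ c (Fin.last b) pp.2 < c (Fin.last b) pp.1 ∧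
          ((((finRotate (e + 1))⁻¹ * c 0)⁻¹ (c (Fin.last b) pp.2) : Fin (e + 1)) : ℕ) <
            al b pp.1)).card) := by
      rw [count_last (al b) (τ (Fin.last b)) (τ 0), hr']
      have := count (al b) (hmono b) (τ (Fin.last b)) (τ 0 * finRotate (e + 1)) (by
        intro t
        rw [Equiv.Perm.mul_apply, finRotate_apply]
        exact ha2 t)
      have h5 : (τ (Fin.last b))⁻¹ = c (Fin.last b) := by rw [hcc, inv_inv]
      have h6 : τ 0 * finRotate (e + 1) = ((finRotate (e + 1))⁻¹ * c 0)⁻¹ := by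
        rw [mul_inv_rev, inv_inv, hcc]
      rw [h5] at this
      rw [h6] at this ⊢
      omega
    have e3 : (∑ i : Fin (b + 1), inv (τ i)) = (∑ i : Fin b, inv (τ i.castSucc)) +
        inv (τ (Fin.last b)) := Fin.sum_univ_castSucc _
    have e4 : (∑ i : Fin b, inv (τ i.castSucc)) + (∑ i : Fin b, (univ.filter
        (fun st : Fin (e + 1) × Fin (e + 1) =>
        st.1 < st.2 ∧ (τ i.succ st.1 : ℕ) < al i (τ i.castSucc st.2))).card) =
        b * N + ∑ i : Fin b, (univ.filter (fun pp : Fin (e + 1) × Fin (e + 1) =>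
        pp.1 < pp.2 ∧ c i.castSucc pp.2 < c i.castSucc pp.1 ∧
          (((c i.succ)⁻¹ (c i.castSucc pp.2) : Fin (e + 1)) : ℕ) < al i pp.1)).card := by
      rw [← Finset.sum_add_distrib, Finset.sum_congr rfl fun i _ => e1 i,
        Finset.sum_add_distrib]
      simp
    rw [e3]
    have e5 : (b + 1) * N = b * N + N := by ring
    rw [e5]
    omega
  · rw [if_neg (fun h' => hadj h'.1)]
    have : Bmat q (al b) ((finRotate (e + 1))⁻¹ * c 0) (c (Fin.last b)) *
          ∏ i : Fin b, Bmat q (al i) (c i.succ) (c i.castSucc) = 0 := by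
      by_cases h2 : ∀ t : Fin (e + 1), (τ 0 (t + 1) : ℕ) < al b (τ (Fin.last b) t)
      · have h3 : ¬ ∀ i : Fin b, (∀ t, (τ i.succ t : ℕ) < al i (τ i.castSucc t)) :=
          fun h3 => hadj ⟨fun i t => h3 i t, h2⟩
        push Not at h3
        obtain ⟨i, t, hi⟩ := h3
        have h4 : ¬ ∀ p : Fin (e + 1),
            (((c i.succ)⁻¹ (c i.castSucc p) : Fin (e + 1)) : ℕ) < al i p := by
          rw [← hA1 i]
          push Not
          exact ⟨t, hi⟩
        rw [Finset.prod_eq_zero (Finset.mem_univ i), mul_zero]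
        unfold Bmat
        rw [if_neg h4]
      · rw [hA2] at h2
        unfold Bmat
        rw [if_neg h2, zero_mul]
    rw [this]
    simp

end H6

/-- The core lemma, from the commutation lemma and the two trace lemmas
(`core q hq al hmono hper := core_of q (Bmat_comm q) (Lam_shift q hq) (Lam_cyc q hq) ...`). -/
theorem core_of {K : Type*} [Field K] (q : K) {b e : ℕ}
    (hB : ∀ a : Fin (e + 1) → ℕ, Monotone a → Comm q (Bmat q a))
    (hshift : ∀ X : Matrix (Equiv.Perm (Fin (e + 1))) (Equiv.Perm (Fin (e + 1))) K,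
      Comm q X → ∀ r : Fin (e + 1), Lam r X = q ^ (r : ℕ) * Lam 0 X)
    (hcyc : ∀ X Y : Matrix (Equiv.Perm (Fin (e + 1))) (Equiv.Perm (Fin (e + 1))) K,
      Comm q X → Comm q Y → Lam 0 (X * Y) = Lam 0 (Y * X))
    (al : ℕ → Fin (e + 1) → ℕ) (hmono : ∀ i, Monotone (al i))
    (hper : ∀ i, al (i + (b + 1)) = al i) :
    ∃ A : K, ∀ (j : ℕ) (r : Fin (e + 1)),
      PP (b := b) q (fun i => al (i + j)) r = q ^ ((r : ℕ) + predc (al (j + b)) r) * A := by
  classical
  refine ⟨q ^ ((b + 1) * (univ.filter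
    (fun st : Fin (e + 1) × Fin (e + 1) => st.1 < st.2)).card) * Lam 0 (H6.PB q al (b + 1)),
    fun j r => ?_⟩
  have hC : ∀ (f : ℕ → Fin (e + 1) → ℕ), (∀ i, Monotone (f i)) → ∀ k,
      Comm q (H6.PB q f k) := fun f hf k => H6.PB_comm q f (fun i => hB _ (hf i)) k
  have hj : Lam 0 (H6.PB q (fun i => al (i + j)) (b + 1)) = Lam 0 (H6.PB q al (b + 1)) := by
    induction j with
    | zero => rfl
    | succ j ih =>
      rw [← ih, H6.PB_shift q (fun i => al (i + j)) b]
      have h1 : H6.PB q (fun i => al (i + (j + 1))) (b + 1) =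
          Bmat q (al (b + (j + 1))) * H6.PB q (fun i => al (i + (j + 1))) b := rfl
      have h2 : al (b + (j + 1)) = al (0 + j) := by
        rw [show b + (j + 1) = (0 + j) + (b + 1) by ring, hper]
      have h3 : (fun i => (fun i => al (i + j)) (i + 1)) = (fun i => al (i + (j + 1))) := by
        funext i
        show al (i + 1 + j) = al (i + (j + 1))
        congr 1
        ring
      rw [h1, h2, h3]
      exact hcyc _ _ (hB _ (hmono _)) (hC _ (fun i => hmono _) _)
  rw [H6.PP_eq q (fun i => al (i + j)) (fun i => hmono _) r,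
    hshift _ (hC _ (fun i => hmono _) _) r, hj]
  show q ^ predc (al (b + j)) r * _ = _
  rw [show b + j = j + b by ring, pow_add]
  ring

end Pool.Agent.Lib.MP_0e7911_co_h50
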